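import Pool.Agent.T9h46.CR.Geo
import Pool.Agent.N526.CP.INJF2
import Pool.Agent.N526.CP.HEM
import Pool.Agent.N526.CP.SPH
import Pool.Agent.N526.CP.UDER

/-!
# The area of a region of the sphere in the coordinates given by the orthogonal projection
-/

set_option autoImplicit false

open MeasureTheory Metric Set Filter Topology InnerProductGeometry
open scoped Pointwise

namespace Pool.Agent.T9h46.CR

open Pool.Agent.H241R3.FV Pool.Agent.N526.CP

/-- The part of the sphere over a subset of the unit disc. -/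
def lift (B : Set (E 2)) : Set (Sph 3) := {q | ∃ X ∈ B, (q : E 3) = up X}

theorem lift_eq {B : Set (E 2)} (hB : ∀ X ∈ B, ‖X‖ < 1) :
    lift B = {q : Sph 3 | pr (q : E 3) ∈ B ∧ 0 ≤ (q : E 3) 2} := by
  ext q
  constructor
  · rintro ⟨X, hX, hq⟩
    refine ⟨?_, ?_⟩
    · rw [hq, pr_up]
      exact hX
    · rw [hq]
      exact (up2_pos (hB X hX)).le
  · rintro ⟨h1, h2⟩
    exact ⟨_, h1, (up_pr (norm_sph q) h2).symm⟩

theorem meas_lift {B : Set (E 2)} (hm : MeasurableSet B) (hB : ∀ X ∈ B, ‖X‖ < 1) :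
    MeasurableSet (lift B) := by
  rw [lift_eq hB]
  have h1 : MeasurableSet {q : Sph 3 | pr (q : E 3) ∈ B} :=
    (cont_pr.comp continuous_subtype_val).measurable hm
  have h2 : Continuous fun q : Sph 3 => (q : E 3) 2 := by
    have h : Continuous fun v : E 3 => v 2 := by fun_prop
    exact h.comp continuous_subtype_val
  have h3 : MeasurableSet {q : Sph 3 | (0 : ℝ) ≤ (q : E 3) 2} :=
    measurableSet_le measurable_const h2.measurable
  exact h1.inter h3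

/-- the cone coordinates -/
noncomputable def Co (v : E 3) : E 3 :=
  !₂[v 2 * v 0, v 2 * v 1, v 2 * √(1 - (v 0 ^ 2 + v 1 ^ 2))]

/-- the matrix of its derivative -/
noncomputable def Cm (v : E 3) : Matrix (Fin 3) (Fin 3) ℝ :=
  !![v 2, 0, v 0; 0, v 2, v 1;
    -(v 2 * v 0 / √(1 - (v 0 ^ 2 + v 1 ^ 2))), -(v 2 * v 1 / √(1 - (v 0 ^ 2 + v 1 ^ 2))),
    √(1 - (v 0 ^ 2 + v 1 ^ 2))]

theorem Cm_det (v : E 3) (h : v 0 ^ 2 + v 1 ^ 2 < 1) :
    (Cm v).det = v 2 ^ 2 * (√(1 - (v 0 ^ 2 + v 1 ^ 2)))⁻¹ := by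
  have h1 : 0 < √(1 - (v 0 ^ 2 + v 1 ^ 2)) := Real.sqrt_pos.2 (by linarith)
  have h2 : √(1 - (v 0 ^ 2 + v 1 ^ 2)) ^ 2 = 1 - (v 0 ^ 2 + v 1 ^ 2) :=
    Real.sq_sqrt (by linarith)
  rw [Cm, Matrix.det_fin_three]
  simp only [Matrix.of_apply, Matrix.cons_val', Matrix.cons_val_zero, Matrix.cons_val_one,
    Matrix.cons_val_fin_one, Matrix.cons_val]
  set h := √(1 - (v 0 ^ 2 + v 1 ^ 2)) with hh
  field_simp
  linear_combination (v 2 ^ 2) * h2

theorem has_coord (i : Fin 3) (v : E 3) : HasFDerivAt (fun w : E 3 => w i)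
    (EuclideanSpace.proj i : E 3 →L[ℝ] ℝ) v :=
  (EuclideanSpace.proj i : E 3 →L[ℝ] ℝ).hasFDerivAt

theorem Co_deriv (v : E 3) (h : v 0 ^ 2 + v 1 ^ 2 < 1) : HasFDerivAt Co (cl (Cm v)) v := by
  rw [← hasFDerivWithinAt_univ, hasFDerivWithinAt_euclidean]
  have h0 := has_coord 0 v
  have h1 := has_coord 1 v
  have h2 := has_coord 2 v
  have hs : 0 < 1 - (v 0 ^ 2 + v 1 ^ 2) := by linarith
  have hs0 : √(1 - (v 0 ^ 2 + v 1 ^ 2)) ≠ 0 := (Real.sqrt_pos.2 hs).ne'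
  have h3 : HasFDerivAt (fun w : E 3 => 1 - (w 0 ^ 2 + w 1 ^ 2))
      (-((2 * v 0) • (EuclideanSpace.proj 0 : E 3 →L[ℝ] ℝ) +
        (2 * v 1) • (EuclideanSpace.proj 1 : E 3 →L[ℝ] ℝ))) v := by
    have h := ((h0.pow 2).add (h1.pow 2)).const_sub 1
    refine h.congr_fderiv ?_
    norm_num
  have h4 := (Real.hasDerivAt_sqrt hs.ne').comp_hasFDerivAt v h3
  intro i
  rw [hasFDerivWithinAt_univ]
  fin_cases i
  · refine (h2.mul h0).congr_fderiv ?_
    refine ContinuousLinearMap.ext fun w => ?_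
    show v 2 * w 0 + v 0 * w 2 = (cl (Cm v) w) 0
    rw [UDER.cl_apply, Fin.sum_univ_three]
    simp [Cm]
  · refine (h2.mul h1).congr_fderiv ?_
    refine ContinuousLinearMap.ext fun w => ?_
    show v 2 * w 1 + v 1 * w 2 = (cl (Cm v) w) 1
    rw [UDER.cl_apply, Fin.sum_univ_three]
    simp [Cm]
  · refine (h2.mul h4).congr_fderiv ?_
    refine ContinuousLinearMap.ext fun w => ?_
    show v 2 * (1 / (2 * √(1 - (v 0 ^ 2 + v 1 ^ 2))) * -((2 * v 0) * w 0 + (2 * v 1) * w 1)) +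
      √(1 - (v 0 ^ 2 + v 1 ^ 2)) * w 2 = (cl (Cm v) w) 2
    rw [UDER.cl_apply, Fin.sum_univ_three]
    simp only [Cm, Matrix.of_apply, Matrix.cons_val', Matrix.cons_val_zero, Matrix.cons_val_one,
      Matrix.cons_val_fin_one, Matrix.cons_val]
    field_simp
    ring

/-- the last coordinate and the projection -/
noncomputable def spl (v : E 3) : ℝ × E 2 := (v 2, pr v)

theorem spl_mp : MeasurePreserving spl (volume : Measure (E 3)) (volume : Measure (ℝ × E 2)) := by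
  have h1 : MeasurePreserving (@WithLp.ofLp 2 (Fin 3 → ℝ)) := PiLp.volume_preserving_ofLp (Fin 3)
  have h2 := volume_preserving_piFinSuccAbove (fun _ : Fin 3 => ℝ) (Fin.last 2)
  have h3 : MeasurePreserving (@WithLp.toLp 2 (Fin 2 → ℝ)) := PiLp.volume_preserving_toLp (Fin 2)
  have h4 : MeasurePreserving (Prod.map (id : ℝ → ℝ) (@WithLp.toLp 2 (Fin 2 → ℝ)))
      (volume : Measure (ℝ × (Fin 2 → ℝ))) (volume : Measure (ℝ × E 2)) :=
    (MeasurePreserving.id (volume : Measure ℝ)).prod h3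
  have h5 := h4.comp (h2.comp h1)
  have e : spl = (Prod.map (id : ℝ → ℝ) (@WithLp.toLp 2 (Fin 2 → ℝ))) ∘
      ((MeasurableEquiv.piFinSuccAbove (fun _ : Fin 3 => ℝ) (Fin.last 2)) ∘
        (@WithLp.ofLp 2 (Fin 3 → ℝ))) := by
    funext v
    refine Prod.ext rfl ?_
    ext i
    fin_cases i <;> rfl
  rw [e]
  exact h5

theorem spl_lint {B : Set (E 2)} (hm : MeasurableSet B) (hB : ∀ X ∈ B, ‖X‖ < 1) :
    ∫⁻ v in spl ⁻¹' (Ioo (0 : ℝ) 1 ×ˢ B), ENNReal.ofReal |(cl (Cm v)).det| =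
      ENNReal.ofReal (1 / 3) * ∫⁻ X in B, ENNReal.ofReal (√(1 - ‖X‖ ^ 2))⁻¹ := by
  have e1 : ∀ v ∈ spl ⁻¹' (Ioo (0 : ℝ) 1 ×ˢ B), ENNReal.ofReal |(cl (Cm v)).det| =
      (fun z : ℝ × E 2 => ENNReal.ofReal (z.1 ^ 2) * ENNReal.ofReal (√(1 - ‖z.2‖ ^ 2))⁻¹)
        (spl v) := by
    intro v hv
    have h1 : ‖pr v‖ < 1 := hB _ hv.2
    have h2 : ‖pr v‖ ^ 2 = v 0 ^ 2 + v 1 ^ 2 := by
      rw [nsq]
      rfl
    have h3 : v 0 ^ 2 + v 1 ^ 2 < 1 := by
      rw [← h2]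
      nlinarith [norm_nonneg (pr v)]
    show _ = ENNReal.ofReal ((v 2) ^ 2) * ENNReal.ofReal (√(1 - ‖pr v‖ ^ 2))⁻¹
    rw [← ENNReal.ofReal_mul (by positivity), h2]
    congr 1
    have h4 : (cl (Cm v)).det = (Cm v).det := by
      rw [det_mat]
      congr 1
      unfold cl
      ext i j
      rw [mat]
      simp
    rw [h4, Cm_det v h3, abs_of_nonneg (by positivity)]
  have hms : MeasurableSet (Ioo (0 : ℝ) 1 ×ˢ B) := measurableSet_Ioo.prod hm
  rw [setLIntegral_congr_fun (spl_mp.measurable hms) e1]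
  have hmf : Measurable (fun z : ℝ × E 2 => ENNReal.ofReal (z.1 ^ 2) *
      ENNReal.ofReal (√(1 - ‖z.2‖ ^ 2))⁻¹) := by
    fun_prop
  rw [spl_mp.setLIntegral_comp_preimage hms hmf]
  rw [Measure.volume_eq_prod, ← Measure.prod_restrict, lintegral_prod_mul (f := fun r : ℝ => ENNReal.ofReal (r ^ 2))
    (g := fun X : E 2 => ENNReal.ofReal (√(1 - ‖X‖ ^ 2))⁻¹) (by fun_prop) (by fun_prop)]
  congr 1
  have h1 : ∫⁻ r in Ioo (0 : ℝ) 1, ENNReal.ofReal (r ^ 2) =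
      ENNReal.ofReal (∫ r in Ioo (0 : ℝ) 1, r ^ 2) := by
    rw [ofReal_integral_eq_lintegral_ofReal]
    · exact (continuous_pow 2).integrableOn_Icc.mono_set Ioo_subset_Icc_self
    · exact Eventually.of_forall fun r => sq_nonneg r
  rw [h1, ← integral_Ioc_eq_integral_Ioo, ← intervalIntegral.integral_of_le zero_le_one,
    integral_pow]
  norm_num

/-- the measure of a region of the sphere is at most the integral of the density -/
theorem sph_le {B : Set (E 2)} (hm : MeasurableSet B) (hB : ∀ X ∈ B, ‖X‖ < 1) :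
    (volume : Measure (E 3)).toSphere (lift B) ≤ ∫⁻ X in B, ENNReal.ofReal (√(1 - ‖X‖ ^ 2))⁻¹ := by
  rw [Measure.toSphere_apply' _ (meas_lift hm hB)]
  set T : Set (E 3) := spl ⁻¹' (Ioo (0 : ℝ) 1 ×ˢ B) with hT
  have hTm : MeasurableSet T := spl_mp.measurable (measurableSet_Ioo.prod hm)
  have hsub : Ioo (0 : ℝ) 1 • ((fun q : Sph 3 => (q : E 3)) '' lift B) ⊆ Co '' T := by
    rintro _ ⟨r, hr, _, ⟨q, ⟨X, hX, hq⟩, rfl⟩, rfl⟩
    refine ⟨!₂[X 0, X 1, r], ⟨hr, ?_⟩, ?_⟩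
    · show pr !₂[X 0, X 1, r] ∈ B
      convert hX using 1
      ext i
      fin_cases i <;> rfl
    · show Co !₂[X 0, X 1, r] = r • (q : E 3)
      rw [hq]
      ext i
      fin_cases i
      · rfl
      · rfl
      · show r * √(1 - (X 0 ^ 2 + X 1 ^ 2)) = r * √(1 - ‖X‖ ^ 2)
        rw [nsq]
  have hdim : Module.finrank ℝ (E 3) = 3 := by simp
  have h1 : volume (Co '' T) ≤ ∫⁻ v in T, ENNReal.ofReal |(cl (Cm v)).det| := by
    apply addHaar_image_le_lintegral_abs_det_fderiv _ hTm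
    intro v hv
    apply HasFDerivAt.hasFDerivWithinAt
    apply Co_deriv
    have h1 : ‖pr v‖ < 1 := hB _ hv.2
    have h2 : ‖pr v‖ ^ 2 = v 0 ^ 2 + v 1 ^ 2 := by
      rw [nsq]
      rfl
    rw [← h2]
    nlinarith [norm_nonneg (pr v)]
  rw [hT, spl_lint hm hB] at h1
  rw [hdim]
  refine (mul_le_mul_right ((measure_mono hsub).trans h1) _).trans ?_
  rw [← mul_assoc]
  have h2 : ((3 : ℕ) : ENNReal) * ENNReal.ofReal (1 / 3) = 1 := by
    rw [show ((3 : ℕ) : ENNReal) = ENNReal.ofReal 3 by simp, ← ENNReal.ofReal_mul (by norm_num)]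
    norm_num
  rw [h2, one_mul]

end Pool.Agent.T9h46.CR
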