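import Pool.Agent.T9h46.CR.Area
import Pool.Agent.N526.CP.Reg

/-!
# The replacement of a convex region of the hemisphere: assembly
-/

set_option autoImplicit false

open MeasureTheory Metric Set Filter Topology InnerProductGeometry

namespace Pool.Agent.T9h46.CR

open Pool.Agent.H241R3.FV Pool.Agent.N526.CP

theorem sph_univ : (volume : Measure (E 3)).toSphere univ = ENNReal.ofReal (4 * Real.pi) := by
  rw [Measure.toSphere_apply_univ, EuclideanSpace.volume_ball_fin_three]
  have hdim : Module.finrank ℝ (E 3) = 3 := by simp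
  rw [hdim, ENNReal.ofReal_one, one_pow, one_mul,
    show ((3 : ℕ) : ENNReal) = ENNReal.ofReal 3 by simp, ← ENNReal.ofReal_mul (by norm_num)]
  congr 1
  ring

theorem hemi_ge (N : E 3) : ENNReal.ofReal (2 * Real.pi) ≤
    (volume : Measure (E 3)).toSphere {q : Sph 3 | 0 ≤ inner ℝ N (q : E 3)} := by
  set A : Set (Sph 3) := {q : Sph 3 | 0 ≤ inner ℝ N (q : E 3)} with hA
  have hmp : MeasurePreserving (rot (LinearIsometryEquiv.neg ℝ : E 3 ≃ₗᵢ[ℝ] E 3)) (sig 3) (sig 3) :=
    TInv.taskInv 3 (by norm_num) _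
  have hmA : MeasurableSet A := by
    apply measurableSet_le measurable_const
    exact (continuous_const.inner continuous_subtype_val).measurable
  have h1 : sig 3 (rot (LinearIsometryEquiv.neg ℝ : E 3 ≃ₗᵢ[ℝ] E 3) ⁻¹' A) = sig 3 A :=
    hmp.measure_preimage hmA.nullMeasurableSet
  have h2 : (univ : Set (Sph 3)) ⊆ A ∪ rot (LinearIsometryEquiv.neg ℝ : E 3 ≃ₗᵢ[ℝ] E 3) ⁻¹' A := by
    intro q _
    by_cases hq : 0 ≤ inner ℝ N (q : E 3)
    · exact Or.inl hq
    · right
      show 0 ≤ inner ℝ N (-(q : E 3))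
      rw [inner_neg_right]
      push Not at hq
      linarith
  have h3 : sig 3 univ ≤ sig 3 A + sig 3 A := by
    calc sig 3 univ ≤ sig 3 (A ∪ rot (LinearIsometryEquiv.neg ℝ : E 3 ≃ₗᵢ[ℝ] E 3) ⁻¹' A) :=
          measure_mono h2
      _ ≤ sig 3 A + sig 3 (rot (LinearIsometryEquiv.neg ℝ : E 3 ≃ₗᵢ[ℝ] E 3) ⁻¹' A) :=
          measure_union_le _ _
      _ = _ := by rw [h1]
  have h4 : sig 3 univ = ENNReal.ofReal (2 * Real.pi) + ENNReal.ofReal (2 * Real.pi) := by
    have h5 : sig 3 univ = ENNReal.ofReal (4 * Real.pi) := sph_univ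
    rw [h5, ← ENNReal.ofReal_add (by positivity) (by positivity)]
    congr 1
    ring
  rw [h4] at h3
  by_contra hc
  push Not at hc
  have h6 : sig 3 A < ENNReal.ofReal (2 * Real.pi) := hc
  exact absurd h3 (not_le.2 (ENNReal.add_lt_add h6 h6))

theorem area_le {N : E 3} {F : E 2 → E 2} {M : Type} [MetricSpace M] [CompactSpace M]
    (S : OFill 2 M)
    (hlip : ∃ L : NNReal, LipschitzOnWith L F (closedBall 0 1))
    (hinj : InjOn F (closedBall (0 : E 2) 1))
    (hint : interior (F '' closedBall (0 : E 2) 1) = F '' ball (0 : E 2) 1)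
    (hor : ∀ᵐ y ∂(volume.restrict (ball (0 : E 2) 1)), 0 ≤ (fderiv ℝ F y).det)
    (hcap : ∀ y ∈ closedBall (0 : E 2) 1, ‖F y‖ ≤ 947 / 1000)
    (hemi : ∀ y ∈ closedBall (0 : E 2) 1, 0 ≤ inner ℝ N (up (F y)))
    (conv : ∀ x ∈ closedBall (0 : E 2) 1, ∀ y ∈ closedBall (0 : E 2) 1, ∀ a b : ℝ, 0 ≤ a → 0 ≤ b →
      a + b = 1 → ∃ z ∈ closedBall (0 : E 2) 1, ∃ t : ℝ, 0 < t ∧
        a • up (F x) + b • up (F y) = t • up (F z))
    (hD : ∀ p : E 3, ‖p‖ = 1 → inner ℝ N p = 0 → ∀ x y : Sph 2, Off F p (up (F x)) →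
      Off F (-p) (up (F y)) →
      Real.pi ≤ angle p (up (F x)) + dist (S.bd x) (S.bd y) + angle (up (F y)) (-p)) :
    (volume : Measure (E 3)).toSphere (lift (F '' closedBall (0 : E 2) 1)) ≤ S.vol := by
  have h1 : ∀ y ∈ closedBall (0 : E 2) 1, ‖F y‖ < 1 := fun y hy =>
    (hcap y hy).trans_lt (by norm_num)
  obtain ⟨L, hL⟩ := hlip
  have hbd : ∀ x y : Sph 2, hdist (F x) (F y) ≤ dist (S.bd x) (S.bd y) := by
    intro x y
    rw [hdist_eq (h1 _ (sphere_subset_closedBall x.2)) (h1 _ (sphere_subset_closedBall y.2))]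
    exact dom (N := N) h1 conv hinj hint hemi (D := fun x y => dist (S.bd x) (S.bd y))
      (fun _ _ => dist_nonneg) hD x y
  have h2 := Reg.reg (d := 1) le_rfl (s := 947 / 1000) (by norm_num) (Or.inl ⟨rfl, le_rfl⟩) M S F L
    hL hcap hbd
  rw [INJF2.t 1 F L hL (hinj.mono ball_subset_closedBall) hor] at h2
  refine le_trans ?_ h2
  have hcont : ContinuousOn F (closedBall 0 1) := hL.continuousOn
  have hcl : IsClosed (F '' closedBall (0 : E 2) 1) :=
    ((isCompact_closedBall (0 : E 2) 1).image_of_continuousOn hcont).isClosed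
  have hB : ∀ X ∈ F '' closedBall (0 : E 2) 1, ‖X‖ < 1 := by
    rintro _ ⟨y, hy, rfl⟩
    exact h1 y hy
  refine (sph_le hcl.measurableSet hB).trans ?_
  have hsp : volume (F '' sphere (0 : E 2) 1) = 0 :=
    INJF2.null_image (hL.mono sphere_subset_closedBall) (Measure.addHaar_sphere _ _ _)
  have hae : (F '' closedBall (0 : E 2) 1 : Set (E 2)) =ᵐ[volume] F '' ball (0 : E 2) 1 := by
    rw [← ball_union_sphere, image_union]
    exact union_ae_eq_left_of_ae_eq_empty (ae_eq_empty.2 hsp)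
  rw [setLIntegral_congr hae, ofReal_integral_eq_lintegral_ofReal]
  · have hop : MeasurableSet (F '' ball (0 : E 2) 1) := by
      rw [← hint]
      exact isOpen_interior.measurableSet
    refine Measure.integrableOn_of_bounded (M := (√(1 - (947 / 1000) ^ 2))⁻¹) ?_ ?_ ?_
    · have hsub : F '' ball (0 : E 2) 1 ⊆ ball 0 1 := by
        rintro _ ⟨y, hy, rfl⟩
        rw [mem_ball_zero_iff]
        exact h1 y (ball_subset_closedBall hy)
      exact ((measure_mono hsub).trans_lt measure_ball_lt_top).ne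
    · exact (by fun_prop : Measurable fun X : E 2 => (√(1 - ‖X‖ ^ 2))⁻¹).aestronglyMeasurable
    · rw [ae_restrict_iff' hop]
      refine Eventually.of_forall ?_
      rintro _ ⟨y, hy, rfl⟩
      have h3 := hcap y (ball_subset_closedBall hy)
      rw [Real.norm_of_nonneg (by positivity)]
      apply inv_anti₀ (Real.sqrt_pos.2 (by norm_num))
      apply Real.sqrt_le_sqrt
      have h4 := norm_nonneg (F y)
      nlinarith
  · exact Eventually.of_forall fun X => by positivity

theorem total {N : E 3} {C : Set (Sph 3)} {v : ENNReal}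
    (h : (volume : Measure (E 3)).toSphere C ≤ v) :
    ENNReal.ofReal (2 * Real.pi) ≤
      (volume : Measure (E 3)).toSphere ({q : Sph 3 | 0 ≤ inner ℝ N (q : E 3)} \ C) + v := by
  refine (hemi_ge N).trans ?_
  have h1 : {q : Sph 3 | 0 ≤ inner ℝ N (q : E 3)} ⊆
      ({q : Sph 3 | 0 ≤ inner ℝ N (q : E 3)} \ C) ∪ C := by
    intro q hq
    by_cases hc : q ∈ C
    · exact Or.inr hc
    · exact Or.inl ⟨hq, hc⟩
  refine (measure_mono h1).trans ((measure_union_le _ _).trans ?_)
  exact add_le_add_right h _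

end Pool.Agent.T9h46.CR
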