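import Pool.Agent.N526.CP.Stm3

/-!
# Convex regions of the hemisphere: great circles (filling area)
-/

set_option autoImplicit false

open Metric Set Filter Topology InnerProductGeometry

namespace Pool.Agent.T9h46.CR

open Pool.Agent.H241R3.FV Pool.Agent.N526.CP

/-- The point of the upper unit hemisphere of `ℝ³` with the orthogonal projection `X` to the plane. -/
noncomputable def up (X : E 2) : E 3 := !₂[X 0, X 1, √(1 - ‖X‖ ^ 2)]

/-- No point `up (F z)`, `|z| < 1`, lies on the great circle arc from `p` to `q`. -/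
def Off (F : E 2 → E 2) (p q : E 3) : Prop :=
  ∀ a b : ℝ, 0 ≤ a → 0 ≤ b → ∀ z ∈ ball (0 : E 2) 1, a • p + b • q ≠ up (F z)

theorem up0 (X : E 2) : up X 0 = X 0 := rfl
theorem up1 (X : E 2) : up X 1 = X 1 := rfl
theorem up2 (X : E 2) : up X 2 = √(1 - ‖X‖ ^ 2) := rfl

theorem nsq (X : E 2) : ‖X‖ ^ 2 = X 0 ^ 2 + X 1 ^ 2 := by
  rw [EuclideanSpace.norm_sq_eq, Fin.sum_univ_two]
  simp only [Real.norm_eq_abs, sq_abs]

theorem inner3 (u v : E 3) : inner ℝ u v = u 0 * v 0 + u 1 * v 1 + u 2 * v 2 := by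
  rw [PiLp.inner_apply, Fin.sum_univ_three]
  simp [mul_comm]

theorem inner2 (u v : E 2) : inner ℝ u v = u 0 * v 0 + u 1 * v 1 := by
  rw [PiLp.inner_apply, Fin.sum_univ_two]
  simp [mul_comm]

theorem inner_up (X Y : E 2) :
    inner ℝ (up X) (up Y) = √(1 - ‖X‖ ^ 2) * √(1 - ‖Y‖ ^ 2) + inner ℝ X Y := by
  rw [inner3, inner2]
  simp only [up0, up1, up2]
  ring

theorem norm_up {X : E 2} (h : ‖X‖ < 1) : ‖up X‖ = 1 := by
  have h1 : ‖up X‖ ^ 2 = 1 := by
    rw [← real_inner_self_eq_norm_sq, inner_up, real_inner_self_eq_norm_sq,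
      Real.mul_self_sqrt (by nlinarith [norm_nonneg X])]
    ring
  nlinarith [norm_nonneg (up X)]

theorem up2_pos {X : E 2} (h : ‖X‖ < 1) : 0 < up X 2 := by
  rw [up2]
  exact Real.sqrt_pos.2 (by nlinarith [norm_nonneg X])

theorem up_inj {X Y : E 2} (h : up X = up Y) : X = Y := by
  ext i
  fin_cases i
  · exact congrArg (fun v : E 3 => v 0) h
  · exact congrArg (fun v : E 3 => v 1) h

theorem hdist_eq {X Y : E 2} (hX : ‖X‖ < 1) (hY : ‖Y‖ < 1) : hdist X Y = angle (up X) (up Y) := by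
  unfold hdist angle
  rw [norm_up hX, norm_up hY, inner_up, one_mul, div_one]

/-- positive multiples -/
theorem up_pos_smul {X Y : E 2} (hX : ‖X‖ < 1) (hY : ‖Y‖ < 1) {t : ℝ} (ht : 0 ≤ t)
    (h : up X = t • up Y) : X = Y := by
  have h1 := congrArg norm h
  rw [norm_smul, norm_up hX, norm_up hY, mul_one, Real.norm_of_nonneg ht] at h1
  rw [← h1, one_smul] at h
  exact up_inj h

/-- the projection to the plane -/
noncomputable def pr (v : E 3) : E 2 := !₂[v 0, v 1]

theorem cont_pr : Continuous pr := by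
  unfold pr
  fun_prop

theorem cont_up : Continuous up := by
  unfold up
  fun_prop

theorem pr_up (X : E 2) : pr (up X) = X := by
  ext i
  fin_cases i <;> rfl

theorem up_pr {v : E 3} (h1 : ‖v‖ = 1) (h2 : 0 ≤ v 2) : up (pr v) = v := by
  have h3 : ‖v‖ ^ 2 = v 0 ^ 2 + v 1 ^ 2 + v 2 ^ 2 := by
    rw [← real_inner_self_eq_norm_sq, inner3]
    ring
  have h4 : ‖pr v‖ ^ 2 = v 0 ^ 2 + v 1 ^ 2 := by
    rw [nsq]
    rfl
  ext i
  fin_cases i
  · rfl
  · rfl
  · show √(1 - ‖pr v‖ ^ 2) = v 2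
    rw [h4, show 1 - (v 0 ^ 2 + v 1 ^ 2) = v 2 ^ 2 by rw [← one_pow (2 : ℕ), ← h1, h3]; ring]
    exact Real.sqrt_sq h2

variable {N : E 3} {F : E 2 → E 2}

/-- an interior point and a point of a convex region: the points between them are interior -/
theorem interior_between (h1 : ∀ y ∈ closedBall (0 : E 2) 1, ‖F y‖ < 1)
    (conv : ∀ x ∈ closedBall (0 : E 2) 1, ∀ y ∈ closedBall (0 : E 2) 1, ∀ a b : ℝ, 0 ≤ a → 0 ≤ b →
      a + b = 1 → ∃ z ∈ closedBall (0 : E 2) 1, ∃ t : ℝ, 0 < t ∧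
        a • up (F x) + b • up (F y) = t • up (F z))
    {z x y : E 2} (hz : F z ∈ interior (F '' closedBall (0 : E 2) 1))
    (hx : x ∈ closedBall (0 : E 2) 1) (hy : y ∈ closedBall (0 : E 2) 1) {c e : ℝ} (hc : 0 < c)
    (he : 0 ≤ e) (h : up (F z) + e • up (F y) = c • up (F x)) (hzz : z ∈ closedBall (0 : E 2) 1) :
    F x ∈ interior (F '' closedBall (0 : E 2) 1) := by
  set R := F '' closedBall (0 : E 2) 1 with hR
  set g : E 2 → E 3 := fun X => c • up X - e • up (F y) with hg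
  have hgx : g (F x) = up (F z) := by
    rw [hg]
    simp only
    rw [← h]
    abel
  have hgc : Continuous g := (cont_up.const_smul c).sub continuous_const
  have hnz : ‖g (F x)‖ = 1 := by rw [hgx, norm_up (h1 z hzz)]
  have hn0 : ‖g (F x)‖ ≠ 0 := by rw [hnz]; exact one_ne_zero
  have hgn : ContinuousAt (fun X => ‖g X‖⁻¹ • g X) (F x) :=
    (hgc.norm.continuousAt.inv₀ hn0).smul hgc.continuousAt
  have hpr : ContinuousAt (fun X => pr (‖g X‖⁻¹ • g X)) (F x) :=
    ContinuousAt.comp (g := pr) cont_pr.continuousAt hgn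
  have hv : pr (‖g (F x)‖⁻¹ • g (F x)) = F z := by
    rw [hnz, inv_one, one_smul, hgx, pr_up]
  have e1 : ∀ᶠ X in 𝓝 (F x), pr (‖g X‖⁻¹ • g X) ∈ R := by
    apply hpr
    beta_reduce
    rw [hv]
    exact mem_interior_iff_mem_nhds.1 hz
  have e2 : ∀ᶠ X in 𝓝 (F x), 0 < (g X) 2 := by
    have h3 : Continuous fun X => (g X) 2 := by
      have : Continuous fun v : E 3 => v 2 := by fun_prop
      exact this.comp hgc
    apply h3.continuousAt.eventually_const_lt
    beta_reduce
    rw [hgx]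
    exact up2_pos (h1 z hzz)
  have e3 : ∀ᶠ X in 𝓝 (F x), ‖X‖ < 1 :=
    continuous_norm.continuousAt.eventually_lt_const (h1 x hx)
  rw [mem_interior_iff_mem_nhds]
  filter_upwards [e1, e2, e3] with X h2 h3 h4
  obtain ⟨w, hw, hw2⟩ := h2
  have hg0 : 0 < ‖g X‖ := by
    rw [norm_pos_iff]
    intro h0
    rw [h0] at h3
    exact lt_irrefl _ h3
  have h5 : up (F w) = ‖g X‖⁻¹ • g X := by
    rw [hw2]
    apply up_pr
    · rw [norm_smul, norm_inv, norm_norm, inv_mul_cancel₀ hg0.ne']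
    · show 0 ≤ ‖g X‖⁻¹ * (g X) 2
      positivity
  have h6 : c • up X = ‖g X‖ • up (F w) + e • up (F y) := by
    rw [h5, smul_smul, mul_inv_cancel₀ hg0.ne', one_smul, hg]
    simp
  set m := ‖g X‖ with hm
  have hme : 0 < m + e := by positivity
  obtain ⟨q, hq, t, ht, h7⟩ := conv w hw y hy (m / (m + e)) (e / (m + e)) (by positivity)
    (by positivity) (by field_simp)
  refine ⟨q, hq, ?_⟩
  symm
  apply up_pos_smul h4 (h1 q hq) (t := (m + e) * t / c) (by positivity)
  have h8 : c • up X = (m + e) • (t • up (F q)) := by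
    rw [← h7, h6, smul_add, smul_smul, smul_smul, mul_div_cancel₀ _ hme.ne',
      mul_div_cancel₀ _ hme.ne']
  rw [smul_smul] at h8
  rw [div_eq_inv_mul, mul_smul, ← h8, smul_smul, inv_mul_cancel₀ hc.ne', one_smul]

/-- the points of the great circle beyond `F x` seen from `F y` -/
theorem off (h1 : ∀ y ∈ closedBall (0 : E 2) 1, ‖F y‖ < 1)
    (conv : ∀ x ∈ closedBall (0 : E 2) 1, ∀ y ∈ closedBall (0 : E 2) 1, ∀ a b : ℝ, 0 ≤ a → 0 ≤ b →
      a + b = 1 → ∃ z ∈ closedBall (0 : E 2) 1, ∃ t : ℝ, 0 < t ∧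
        a • up (F x) + b • up (F y) = t • up (F z))
    (hinj : InjOn F (closedBall (0 : E 2) 1))
    (hint : interior (F '' closedBall (0 : E 2) 1) = F '' ball (0 : E 2) 1)
    (x y : Sph 2) {α β : ℝ} (hα : 0 ≤ α) (hβ : 0 ≤ β) {w : E 3} {m : ℝ} (hm : 0 < m)
    (hw : m • w = β • up (F x) - α • up (F y)) : Off F w (up (F x)) := by
  intro a b ha hb z hz h
  have hx : (x : E 2) ∈ closedBall (0 : E 2) 1 := sphere_subset_closedBall x.2
  have hy : (y : E 2) ∈ closedBall (0 : E 2) 1 := sphere_subset_closedBall y.2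
  have hz' : z ∈ closedBall (0 : E 2) 1 := ball_subset_closedBall hz
  set A := a / m with hA
  have hA0 : 0 ≤ A := by positivity
  have h2 : a • w = A • (m • w) := by
    rw [smul_smul, hA, div_mul_cancel₀ _ hm.ne']
  have h3 : up (F z) + (A * α) • up (F y) = (A * β + b) • up (F x) := by
    rw [← h, h2, hw, smul_sub, smul_smul, smul_smul, add_smul]
    abel
  have h4 : 0 < (A * β + b) := by
    have h5 := congrArg (fun v : E 3 => v 2) h3
    have h6 : up (F z) 2 + (A * α) * up (F y) 2 = (A * β + b) * up (F x) 2 := h5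
    have h7 := up2_pos (h1 z hz')
    have h8 := up2_pos (h1 _ hx)
    have h9 := up2_pos (h1 _ hy)
    have h10 : 0 < (A * β + b) * up (F x) 2 := by
      rw [← h6]
      positivity
    exact (mul_pos_iff_of_pos_right h8).1 h10
  have hzi : F z ∈ interior (F '' closedBall (0 : E 2) 1) := by
    rw [hint]
    exact mem_image_of_mem F hz
  have h5 := interior_between h1 conv hzi hx hy h4 (by positivity) h3 hz'
  rw [hint] at h5
  obtain ⟨z', hz'1, hz'2⟩ := h5
  have h6 := hinj (ball_subset_closedBall hz'1) hx hz'2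
  rw [h6] at hz'1
  have h7 := norm_sph x
  rw [mem_ball_zero_iff, h7] at hz'1
  exact lt_irrefl _ hz'1

/-- the angle sum on a great semicircle -/
theorem angle_sum {P Q w : E 3} (hP : ‖P‖ = 1) (hQ : ‖Q‖ = 1) {α β : ℝ} (hα : 0 ≤ α) (hβ : 0 ≤ β)
    (hab : 0 < α + β) {m : ℝ} (hm : 0 < m) (hw : m • w = β • P - α • Q) :
    angle w P + angle P Q + angle Q (-w) = Real.pi := by
  have hP0 : P ≠ 0 := by
    intro h
    rw [h, norm_zero] at hP
    exact zero_ne_one hP
  have hQ0 : Q ≠ 0 := by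
    intro h
    rw [h, norm_zero] at hQ
    exact zero_ne_one hQ
  have e1 : angle w P = angle (β • P - α • Q) P := by
    rw [← hw, angle_smul_left_of_pos _ _ hm]
  have e2 : angle Q (-w) = angle Q (α • Q - β • P) := by
    rw [show α • Q - β • P = m • (-w) by rw [smul_neg, hw]; abel, angle_smul_right_of_pos _ _ hm]
  rw [e1, e2]
  rcases hα.eq_or_lt with h | hα'
  · subst h
    rw [zero_add] at hab
    rw [zero_smul, sub_zero, zero_sub, angle_smul_left_of_pos _ _ hab, angle_self hP0,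
      ← smul_neg, angle_smul_right_of_pos _ _ hab, angle_neg_right, angle_comm Q P]
    ring
  rcases hβ.eq_or_lt with h | hβ'
  · subst h
    rw [zero_smul, sub_zero, zero_sub, ← smul_neg, angle_smul_left_of_pos _ _ hα',
      angle_smul_right_of_pos _ _ hα', angle_self hQ0, angle_neg_left, angle_comm Q P]
    ring
  · have h := angle_add_angle_sub_add_angle_sub_eq_pi (β • P) (y := α • Q)
      (smul_ne_zero hα'.ne' hQ0)
    rw [angle_smul_left_of_pos _ _ hβ', angle_smul_right_of_pos _ _ hα',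
      angle_smul_left_of_pos _ _ hβ', angle_smul_left_of_pos _ _ hα'] at h
    rw [angle_comm _ P]
    linarith

/-- The domination: distances in the replacement are at least the distances in the sphere. -/
theorem dom (h1 : ∀ y ∈ closedBall (0 : E 2) 1, ‖F y‖ < 1)
    (conv : ∀ x ∈ closedBall (0 : E 2) 1, ∀ y ∈ closedBall (0 : E 2) 1, ∀ a b : ℝ, 0 ≤ a → 0 ≤ b →
      a + b = 1 → ∃ z ∈ closedBall (0 : E 2) 1, ∃ t : ℝ, 0 < t ∧
        a • up (F x) + b • up (F y) = t • up (F z))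
    (hinj : InjOn F (closedBall (0 : E 2) 1))
    (hint : interior (F '' closedBall (0 : E 2) 1) = F '' ball (0 : E 2) 1)
    (hemi : ∀ y ∈ closedBall (0 : E 2) 1, 0 ≤ inner ℝ N (up (F y)))
    {D : Sph 2 → Sph 2 → ℝ} (hD0 : ∀ x y, 0 ≤ D x y)
    (hD : ∀ p : E 3, ‖p‖ = 1 → inner ℝ N p = 0 → ∀ x y : Sph 2, Off F p (up (F x)) →
      Off F (-p) (up (F y)) →
      Real.pi ≤ angle p (up (F x)) + D x y + angle (up (F y)) (-p)) (x y : Sph 2) :
    angle (up (F x)) (up (F y)) ≤ D x y := by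
  have hx : (x : E 2) ∈ closedBall (0 : E 2) 1 := sphere_subset_closedBall x.2
  have hy : (y : E 2) ∈ closedBall (0 : E 2) 1 := sphere_subset_closedBall y.2
  have hPn := norm_up (h1 _ hx)
  have hQn := norm_up (h1 _ hy)
  have hP2 := up2_pos (h1 _ hx)
  have hQ2 := up2_pos (h1 _ hy)
  by_cases hPQ : up (F x) = up (F y)
  · rw [hPQ, angle_self]
    · exact hD0 x y
    · intro h
      rw [h, norm_zero] at hQn
      exact zero_ne_one hQn
  -- the coefficients
  have hco : ∃ α β : ℝ, 0 ≤ α ∧ 0 ≤ β ∧ 0 < α + β ∧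
      inner ℝ N (β • up (F x) - α • up (F y)) = 0 := by
    set u := inner ℝ N (up (F x)) with hu
    set v := inner ℝ N (up (F y)) with hv
    have hu0 : 0 ≤ u := hemi _ hx
    have hv0 : 0 ≤ v := hemi _ hy
    by_cases h : u + v = 0
    · have hu1 : u = 0 := by linarith
      refine ⟨0, 1, le_rfl, zero_le_one, by norm_num, ?_⟩
      rw [zero_smul, sub_zero, one_smul, ← hu, hu1]
    · refine ⟨u, v, hu0, hv0, lt_of_le_of_ne (by positivity) (Ne.symm h), ?_⟩
      rw [inner_sub_right, inner_smul_right, inner_smul_right, ← hu, ← hv]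
      ring
  obtain ⟨α, β, hα, hβ, hab, hN⟩ := hco
  have hw0 : β • up (F x) - α • up (F y) ≠ 0 := by
    intro h
    have h2 : β • up (F x) = α • up (F y) := sub_eq_zero.1 h
    have h3 := congrArg norm h2
    rw [norm_smul, norm_smul, hPn, hQn, mul_one, mul_one, Real.norm_of_nonneg hβ,
      Real.norm_of_nonneg hα] at h3
    have h4 : β ≠ 0 := by
      intro h5
      rw [h5] at h3
      rw [h5, ← h3] at hab
      norm_num at hab
    rw [← h3] at h2
    exact hPQ (smul_right_injective _ h4 h2)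
  set m := ‖β • up (F x) - α • up (F y)‖ with hm
  have hm0 : 0 < m := norm_pos_iff.2 hw0
  set p : E 3 := m⁻¹ • (β • up (F x) - α • up (F y)) with hp
  have hmp : m • p = β • up (F x) - α • up (F y) := by
    rw [hp, smul_smul, mul_inv_cancel₀ hm0.ne', one_smul]
  have hmp' : m • (-p) = α • up (F y) - β • up (F x) := by
    rw [smul_neg, hmp]
    abel
  have hpn : ‖p‖ = 1 := by
    rw [hp, norm_smul, norm_inv, ← hm, Real.norm_of_nonneg hm0.le, inv_mul_cancel₀ hm0.ne']
  have hpN : inner ℝ N p = 0 := by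
    rw [hp, inner_smul_right, hN, mul_zero]
  have h2 := hD p hpn hpN x y (off h1 conv hinj hint x y hα hβ hm0 hmp)
    (off h1 conv hinj hint y x hβ hα hm0 hmp')
  have h3 := angle_sum hPn hQn hα hβ hab hm0 hmp
  linarith

end Pool.Agent.T9h46.CR
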